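import Mathlib

namespace Pool.Agent.H.MP_2c58a9_co

open Metric Set

abbrev E := EuclideanSpace ℝ (Fin 3)

lemma coord_le {x c : E} {r : ℝ} (h : x ∈ closedBall c r) (i : Fin 3) : |x i - c i| ≤ r := by
  have := PiLp.dist_apply_le x c i
  rw [Real.dist_eq] at this
  exact this.trans (mem_closedBall.1 h)

lemma mem_ball_of {x c : E} {r : ℝ} (hr : 0 ≤ r)
    (h : (x 0 - c 0) ^ 2 + (x 1 - c 1) ^ 2 + (x 2 - c 2) ^ 2 ≤ r ^ 2) : x ∈ closedBall c r := by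
  rw [mem_closedBall, EuclideanSpace.dist_eq, Fin.sum_univ_three]
  simp only [Real.dist_eq, sq_abs]
  exact Real.sqrt_le_iff.2 ⟨hr, h⟩

lemma line {L : AffineSubspace ℝ E} (hL : Module.finrank ℝ L.direction = 1) {x y z : E}
    (hx : x ∈ L) (hy : y ∈ L) (hz : z ∈ L) :
    ∃ (s t : ℝ) (v : E), ∀ i, y i = x i + s * v i ∧ z i = x i + t * v i := by
  obtain ⟨v, -, hv⟩ := finrank_eq_one_iff'.1 hL
  obtain ⟨s, hs⟩ := hv ⟨y -ᵥ x, AffineSubspace.vsub_mem_direction hy hx⟩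
  obtain ⟨t, ht⟩ := hv ⟨z -ᵥ x, AffineSubspace.vsub_mem_direction hz hx⟩
  refine ⟨s, t, v.1, fun i => ⟨?_, ?_⟩⟩
  · have := congrArg (fun w : L.direction => (w : E) i) hs
    simp at this
    linarith
  · have := congrArg (fun w : L.direction => (w : E) i) ht
    simp at this
    linarith

lemma mid {s t pa pv ma mv xa xv : ℝ} (h1 : 0 < pa) (h2 : pa + s * pv ≤ 0) (h3 : pa + t * pv ≤ 0)
    (h4 : 0 < ma) (h5 : ma + s * mv ≤ 0) (h6 : 0 ≤ ma + t * mv) (h7 : xa ≤ 4)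
    (h8 : xa + s * xv ≤ 4) (h9 : 4 < xa + t * xv) : False := by
  have hs : s ≠ 0 := by
    rintro rfl
    linarith
  obtain ⟨l, rfl⟩ : ∃ l, t = l * s := ⟨t / s, by field_simp⟩
  have a1 : 0 < l := by
    by_contra h
    push Not at h
    nlinarith [mul_nonneg_of_nonpos_of_nonpos h (show s * pv ≤ 0 by linarith)]
  have a2 : l ≤ 1 := by
    by_contra h
    push Not at h
    nlinarith [mul_pos (sub_pos.2 h) (show 0 < -(s * mv) by linarith)]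
  nlinarith [mul_nonneg a1.le (sub_nonneg.2 h8), mul_nonneg (sub_nonneg.2 a2) (sub_nonneg.2 h7)]

lemma far {M g0 g1 k0 k1 e0 e1 f0 f1 : ℝ} (hM : 1 ≤ M) (hV : 1 ≤ |g0 * k1 - g1 * k0|)
    (a0 : |g0| ≤ M) (a1 : |g1| ≤ M) (b0 : |k0| ≤ M) (b1 : |k1| ≤ M) (c0 : |e0| ≤ 8)
    (c1 : |e1| ≤ 8) (d0 : |f0| ≤ 8) (d1 : |f1| ≤ 8) :
    (200 * M * g0 + e0) * (200 * M * k1 + f1) - (200 * M * g1 + e1) * (200 * M * k0 + f0) ≠ 0 := by
  intro h
  have mb : ∀ {x y a b : ℝ}, |x| ≤ a → |y| ≤ b → |x * y| ≤ a * b := fun hx hy => by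
    rw [abs_mul]
    exact mul_le_mul hx hy (abs_nonneg _) ((abs_nonneg _).trans hx)
  have p1 := abs_le.1 (mb a0 d1)
  have p2 := abs_le.1 (mb c0 b1)
  have p3 := abs_le.1 (mb a1 d0)
  have p4 := abs_le.1 (mb c1 b0)
  have p5 := abs_le.1 (mb c0 d1)
  have p6 := abs_le.1 (mb c1 d0)
  set V := g0 * k1 - g1 * k0
  set X := g0 * f1 + e0 * k1 - g1 * f0 - e1 * k0
  set Y := e0 * f1 - e1 * f0
  have e : 200 * M * (200 * M * V + X) + Y = 0 := by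
    rw [← h]
    ring
  have hX : -(32 * M) ≤ X ∧ X ≤ 32 * M := ⟨by simp only [X]; linarith, by simp only [X]; linarith⟩
  have hY : -128 ≤ Y ∧ Y ≤ 128 := ⟨by simp only [Y]; linarith, by simp only [Y]; linarith⟩
  clear_value V X Y
  rcases le_abs.1 hV with h | h
  · have : 168 ≤ 200 * M * V + X := by nlinarith
    nlinarith
  · have : 200 * M * V + X ≤ -168 := by nlinarith
    nlinarith

noncomputable def U (M t ε : ℝ) (x : E) : ℝ :=
  2 * M * t ^ 2 * (200 * M) * x 2 + ε * (2 * M + 1) * (2 * t * x 0 - x 1)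

lemma U_cont (M t ε : ℝ) : Continuous (U M t ε) := by
  unfold U
  fun_prop

lemma U_comb (M t ε a b : ℝ) (x y : E) :
    U M t ε (a • x + b • y) = a * U M t ε x + b * U M t ε y := by
  simp only [U, PiLp.add_apply, PiLp.smul_apply, smul_eq_mul]
  ring

lemma U_line {M t ε s : ℝ} {x y v : E} (h : ∀ i, y i = x i + s * v i) :
    U M t ε y = U M t ε x + s * U M t ε v := by
  simp only [U, h]
  ring

lemma U_C {M t : ℝ} {x : E} (ht : 3 ≤ t) (hM : t ^ 2 ≤ M)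
    (hx : x ∈ closedBall (!₂[200 * M * t, 200 * M * t ^ 2, 0] : E) 1) :
    U M t (-1) x ≤ 0 ∧ 0 ≤ U M t 1 x := by
  have h0 := abs_le.1 (coord_le hx 0)
  have h1 := abs_le.1 (coord_le hx 1)
  have h2 := abs_le.1 (coord_le hx 2)
  simp at h0 h1 h2
  have hM9 : 9 ≤ M := by nlinarith
  have k : 200 * M * t ^ 2 - t ^ 2 ≤ 2 * t * x 0 - x 1 := by nlinarith
  have k2 : 2 * M * t ^ 2 * (200 * M) ≤ (2 * M + 1) * (2 * t * x 0 - x 1) := by
    have : (2 * M + 1) * (200 * M * t ^ 2 - t ^ 2) ≤ (2 * M + 1) * (2 * t * x 0 - x 1) :=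
      mul_le_mul_of_nonneg_left k (by linarith)
    nlinarith [mul_nonneg (show 0 ≤ 198 * M - 1 by linarith) (sq_nonneg t)]
  have k3 : 0 ≤ 2 * M * t ^ 2 * (200 * M) := by positivity
  unfold U
  constructor
  · nlinarith [mul_le_mul_of_nonneg_left h2.2 k3]
  · nlinarith [mul_le_mul_of_nonneg_left h2.1 k3]

lemma U_top {M t ε : ℝ} {x : E} (ht : 3 ≤ t) (hM : t ^ 2 ≤ M) (hε : |ε| ≤ 1) (h0 : |x 0| ≤ 1)
    (h1 : |x 1| ≤ 1) : |ε * (2 * M + 1) * (2 * t * x 0 - x 1)| + 1 ≤ 2 * M * t ^ 2 * (200 * M) := by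
  have hM9 : 9 ≤ M := by nlinarith
  have a : |2 * t * x 0 - x 1| ≤ t ^ 2 := by
    have := abs_le.1 h0
    have := abs_le.1 h1
    rw [abs_le]
    constructor <;> nlinarith
  rw [abs_mul, abs_mul, abs_of_pos (show 0 < 2 * M + 1 by linarith)]
  have b : |ε| * (2 * M + 1) * |2 * t * x 0 - x 1| ≤ 1 * (2 * M + 1) * t ^ 2 := by gcongr
  nlinarith [mul_nonneg (show 0 ≤ M - 9 by linarith) (sq_nonneg t),
    mul_nonneg (mul_nonneg (show 0 ≤ M by linarith) (show 0 ≤ M - 9 by linarith)) (sq_nonneg t)]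

lemma U_pt {M t s : ℝ} (ht : 3 ≤ t) (hM : t ^ 2 ≤ M) (h1 : 1 ≤ (t - s) ^ 2)
    (h2 : (t - s) ^ 2 ≤ t ^ 2) :
    1 / M ≤ U M t 1 !₂[s / M, s ^ 2 / M, 1 / M / (200 * M)] ∧
    1 / M ≤ U M t (-1) !₂[s / M, s ^ 2 / M, 1 / M / (200 * M)] := by
  have hM9 : 9 ≤ M := by nlinarith
  have hM0 : 0 < M := by linarith
  have e : ∀ ε : ℝ, U M t ε !₂[s / M, s ^ 2 / M, 1 / M / (200 * M)] =
      (2 * M * t ^ 2 + ε * (2 * M + 1) * (t ^ 2 - (t - s) ^ 2)) / M := fun ε => by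
    simp [U]
    field_simp
    ring
  rw [e, e]
  constructor
  · gcongr
    nlinarith [mul_nonneg (show 0 ≤ 2 * M + 1 by linarith) (sub_nonneg.2 h2)]
  · gcongr
    nlinarith [mul_nonneg (show 0 ≤ 2 * M + 1 by linarith) (sub_nonneg.2 h1)]

end Pool.Agent.H.MP_2c58a9_co
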