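import Pool.Agent.H.MP_2c58a9_co.A

namespace Pool.Agent.H.MP_2c58a9_co

open Metric Set

noncomputable def tt (N : ℕ) (j : ℕ) : ℝ := 2 * N + 3 + j
noncomputable def MM (N : ℕ) : ℝ := (4 * N + 6) ^ 2

lemma tt_ge (N j : ℕ) : 3 ≤ tt N j := by
  unfold tt
  have : (0 : ℝ) ≤ N := by positivity
  have : (0 : ℝ) ≤ j := by positivity
  linarith

lemma tt_le {N j : ℕ} (h : j ≤ 2 * N) : tt N j ^ 2 ≤ MM N := by
  have h3 := tt_ge N j
  unfold MM
  have : (j : ℝ) ≤ 2 * N := by exact_mod_cast h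
  have : tt N j ≤ 4 * N + 6 := by
    unfold tt
    linarith
  gcongr

lemma MM_ge (N : ℕ) : 9 ≤ MM N := by
  have := tt_le (N := N) (j := 0) (by omega)
  have := tt_ge N 0
  nlinarith

noncomputable def fam (N : ℕ) : Bool ⊕ Fin (N + 1) → Set E
  | .inl true => {x | x ∈ closedBall 0 4 ∧ ∀ j : Fin (N + 1), ∀ ε ∈ ({1, -1} : Set ℝ),
      1 / MM N ≤ U (MM N) (tt N (2 * j)) ε x}
  | .inl false => {x | x ∈ closedBall 0 4 ∧ ∀ j : Fin (N + 1), ∀ ε ∈ ({1, -1} : Set ℝ),
      U (MM N) (tt N (2 * j)) ε x ≤ 0}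
  | .inr j => closedBall !₂[200 * MM N * tt N (2 * j), 200 * MM N * tt N (2 * j) ^ 2, 0] 1

lemma fam_compact (N : ℕ) : ∀ i, IsCompact (fam N i)
  | .inl true => by
    refine (isCompact_closedBall 0 4).inter_right (t := {x | ∀ j : Fin (N + 1),
      ∀ ε ∈ ({1, -1} : Set ℝ), 1 / MM N ≤ U (MM N) (tt N (2 * j)) ε x}) ?_
    simp only [ofPred_forall]
    exact isClosed_iInter fun j => isClosed_iInter fun ε => isClosed_iInter fun _ =>
      isClosed_le continuous_const (U_cont _ _ _)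
  | .inl false => by
    refine (isCompact_closedBall 0 4).inter_right (t := {x | ∀ j : Fin (N + 1),
      ∀ ε ∈ ({1, -1} : Set ℝ), U (MM N) (tt N (2 * j)) ε x ≤ 0}) ?_
    simp only [ofPred_forall]
    exact isClosed_iInter fun j => isClosed_iInter fun ε => isClosed_iInter fun _ =>
      isClosed_le (U_cont _ _ _) continuous_const
  | .inr j => isCompact_closedBall _ _

lemma fam_convex (N : ℕ) : ∀ i, Convex ℝ (fam N i)
  | .inl true => fun x hx y hy a b ha hb hab =>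
    ⟨convex_closedBall 0 4 hx.1 hy.1 ha hb hab, fun j ε hε => by
      rw [U_comb]
      have h1 := mul_le_mul_of_nonneg_left (hx.2 j ε hε) ha
      have h2 := mul_le_mul_of_nonneg_left (hy.2 j ε hε) hb
      have : a * (1 / MM N) + b * (1 / MM N) = 1 / MM N := by rw [← add_mul, hab, one_mul]
      linarith⟩
  | .inl false => fun x hx y hy a b ha hb hab =>
    ⟨convex_closedBall 0 4 hx.1 hy.1 ha hb hab, fun j ε hε => by
      rw [U_comb]
      have h1 := mul_le_mul_of_nonneg_left (hx.2 j ε hε) ha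
      have h2 := mul_le_mul_of_nonneg_left (hy.2 j ε hε) hb
      linarith⟩
  | .inr j => convex_closedBall _ _

lemma two_le {N : ℕ} (j : Fin (N + 1)) : 2 * (j : ℕ) ≤ 2 * N := by
  have := j.2
  omega

lemma ball_sub {c : ℝ} (hc : |c| = 3) :
    closedBall (!₂[0, 0, c] : E) 1 ⊆ closedBall 0 4 := by
  refine closedBall_subset_closedBall' ?_
  have : (!₂[0, 0, c] : E) ∈ closedBall (0 : E) 3 := mem_ball_of (by norm_num) (by
    simp
    nlinarith [sq_abs c])
  linarith [mem_closedBall.1 this]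

lemma fam_stub (N : ℕ) : ∀ i, (∃ c, closedBall c 1 ⊆ fam N i) ∧ ∃ c, fam N i ⊆ closedBall c 4
  | .inl true => by
    refine ⟨⟨!₂[0, 0, 3], fun x hx => ⟨ball_sub (by norm_num) hx, fun j ε hε => ?_⟩⟩,
      0, fun x hx => hx.1⟩
    have h0 := coord_le hx 0
    have h1 := coord_le hx 1
    have h2 := (abs_le.1 (coord_le hx 2)).1
    simp at h0 h1 h2
    have k := U_top (x := x) (ε := ε) (tt_ge N (2 * j)) (tt_le (two_le j))
      (by rcases hε with rfl | rfl <;> simp) h0 h1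
    have hM := MM_ge N
    have : 1 / MM N ≤ 1 := by
      rw [div_le_one (by linarith)]
      linarith
    unfold U
    have k1 := neg_abs_le (ε * (2 * MM N + 1) * (2 * tt N (2 * j) * x 0 - x 1))
    have k2 := abs_nonneg (ε * (2 * MM N + 1) * (2 * tt N (2 * j) * x 0 - x 1))
    nlinarith
  | .inl false => by
    refine ⟨⟨!₂[0, 0, -3], fun x hx => ⟨ball_sub (by norm_num) hx, fun j ε hε => ?_⟩⟩,
      0, fun x hx => hx.1⟩
    have h0 := coord_le hx 0
    have h1 := coord_le hx 1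
    have h2 := (abs_le.1 (coord_le hx 2)).2
    simp at h0 h1 h2
    have k := U_top (x := x) (ε := ε) (tt_ge N (2 * j)) (tt_le (two_le j))
      (by rcases hε with rfl | rfl <;> simp) h0 h1
    unfold U
    have k1 := le_abs_self (ε * (2 * MM N + 1) * (2 * tt N (2 * j) * x 0 - x 1))
    have k2 := abs_nonneg (ε * (2 * MM N + 1) * (2 * tt N (2 * j) * x 0 - x 1))
    nlinarith
  | .inr j => ⟨⟨_, subset_rfl⟩, _, closedBall_subset_closedBall (by norm_num)⟩

def tau (N : ℕ) : Bool ⊕ Fin (N + 1) → ℕ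
  | .inl _ => 0
  | .inr j => 2 * N + 3 + 2 * j

lemma tau_bd (N : ℕ) : ∀ i, ((tau N i : ℝ)) ^ 2 ≤ MM N
  | .inl _ => by
    have := MM_ge N
    simp [tau]
    linarith
  | .inr j => by
    have := tt_le (two_le j)
    simpa [tau, tt] using this

lemma near (N : ℕ) : ∀ i, ∀ x ∈ fam N i, |x 0 - 200 * MM N * tau N i| ≤ 4 ∧
    |x 1 - 200 * MM N * (tau N i : ℝ) ^ 2| ≤ 4
  | .inl true => fun x hx => by
    simpa [tau] using And.intro (coord_le hx.1 0) (coord_le hx.1 1)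
  | .inl false => fun x hx => by
    simpa [tau] using And.intro (coord_le hx.1 0) (coord_le hx.1 1)
  | .inr j => fun x hx => by
    have h0 := coord_le hx 0
    have h1 := coord_le hx 1
    simp [tt] at h0 h1
    simp only [tau]
    push_cast
    constructor <;> linarith

lemma sep_far {N : ℕ} {i j k : Bool ⊕ Fin (N + 1)} (hij : tau N i ≠ tau N j)
    (hik : tau N i ≠ tau N k) (hjk : tau N j ≠ tau N k) {L : AffineSubspace ℝ E}
    (hL : Module.finrank ℝ L.direction = 1) {x y z : E} (hx : x ∈ fam N i) (hy : y ∈ fam N j)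
    (hz : z ∈ fam N k) (hx' : x ∈ L) (hy' : y ∈ L) (hz' : z ∈ L) : False := by
  obtain ⟨s, t, v, h⟩ := line hL hx' hy' hz'
  obtain ⟨x0, x1⟩ := near N i x hx
  obtain ⟨y0, y1⟩ := near N j y hy
  obtain ⟨z0, z1⟩ := near N k z hz
  have bi := tau_bd N i
  have bj := tau_bd N j
  have bk := tau_bd N k
  have hM := MM_ge N
  generalize tau N i = a at *
  generalize tau N j = b at *
  generalize tau N k = c at *
  generalize MM N = M at *
  have sq : ∀ a : ℕ, (a : ℝ) ≤ (a : ℝ) ^ 2 := fun a => by exact_mod_cast Nat.le_self_pow two_ne_zero a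
  have nn : ∀ a : ℕ, (0 : ℝ) ≤ a := fun a => by positivity
  have d1 : ∀ a b : ℕ, (a : ℝ) ^ 2 ≤ M → (b : ℝ) ^ 2 ≤ M → |(b : ℝ) - a| ≤ M := fun a b ha hb =>
    abs_le.2 ⟨by linarith [sq a, nn b], by linarith [sq b, nn a]⟩
  have d2 : ∀ a b : ℕ, (a : ℝ) ^ 2 ≤ M → (b : ℝ) ^ 2 ≤ M → |(b : ℝ) ^ 2 - a ^ 2| ≤ M :=
    fun a b ha hb => abs_le.2 ⟨by linarith [sq_nonneg (b : ℝ)], by linarith [sq_nonneg (a : ℝ)]⟩
  have d3 : ∀ {p q : ℝ}, |p| ≤ 4 → |q| ≤ 4 → |p - q| ≤ 8 := fun hp hq => by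
    have := abs_le.1 hp
    have := abs_le.1 hq
    exact abs_le.2 ⟨by linarith, by linarith⟩
  have hV : (1 : ℝ) ≤ |((b : ℝ) - a) * ((c : ℝ) ^ 2 - a ^ 2) - ((b : ℝ) ^ 2 - a ^ 2) * (c - a)| := by
    have : (((b : ℤ) - a) * (c - a) * (c - b)) ≠ 0 :=
      mul_ne_zero (mul_ne_zero (by omega) (by omega)) (by omega)
    have h1 : (1 : ℝ) ≤ |((((b : ℤ) - a) * (c - a) * (c - b) : ℤ) : ℝ)| := by
      exact_mod_cast Int.one_le_abs this
    convert h1 using 2
    push_cast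
    ring
  refine far (by linarith) hV (d1 a b bi bj) (d2 a b bi bj) (d1 a c bi bk) (d2 a c bi bk)
    (d3 y0 x0) (d3 y1 x1) (d3 z0 x0) (d3 z1 x1) ?_
  rw [(h 0).1, (h 0).2, (h 1).1, (h 1).2]
  ring

lemma sep_mid {N : ℕ} {k : Fin (N + 1)} {L : AffineSubspace ℝ E}
    (hL : Module.finrank ℝ L.direction = 1) {x y z : E} (hx : x ∈ fam N (.inl true))
    (hy : y ∈ fam N (.inl false)) (hz : z ∈ fam N (.inr k)) (hx' : x ∈ L) (hy' : y ∈ L)
    (hz' : z ∈ L) : False := by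
  obtain ⟨s, t, v, h⟩ := line hL hx' hy' hz'
  have hM := MM_ge N
  have hp : 0 < 1 / MM N := by positivity
  obtain ⟨c1, c2⟩ := U_C (tt_ge N (2 * k)) (tt_le (two_le k)) hz
  have a1 := hx.2 k 1 (by simp)
  have a2 := hx.2 k (-1) (by simp)
  have b1 := hy.2 k 1 (by simp)
  have b2 := hy.2 k (-1) (by simp)
  rw [U_line fun i => (h i).1] at b1 b2
  rw [U_line fun i => (h i).2] at c1 c2
  have x0 := (abs_le.1 (coord_le hx.1 0)).2
  have y0 := (abs_le.1 (coord_le hy.1 0)).2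
  have z0 := (abs_le.1 (coord_le hz 0)).1
  simp at x0 y0 z0
  have := tt_ge N (2 * k)
  refine mid (hp.trans_le a2) b2 c1 (hp.trans_le a1) b1 c2 x0 ((h 0).1 ▸ y0) ?_
  rw [← (h 0).2]
  nlinarith

lemma sep {N : ℕ} {i j k : Bool ⊕ Fin (N + 1)} (hij : i ≠ j) (hik : i ≠ k) (hjk : j ≠ k)
    {L : AffineSubspace ℝ E} (hL : Module.finrank ℝ L.direction = 1) {x y z : E}
    (hx : x ∈ fam N i) (hy : y ∈ fam N j) (hz : z ∈ fam N k) (hx' : x ∈ L) (hy' : y ∈ L)
    (hz' : z ∈ L) : False := by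
  have t1 : ∀ b j, tau N (.inl b) ≠ tau N (.inr j) := fun b j => by
    simp only [tau]
    omega
  have t2 : ∀ i j : Fin (N + 1), (Sum.inr i : Bool ⊕ Fin (N + 1)) ≠ .inr j →
      tau N (.inr i) ≠ tau N (.inr j) := fun i j h h' => h (by
    simp only [tau] at h'
    rw [Fin.ext (show (i : ℕ) = j by omega)])
  rcases i with (_ | _) | i <;> rcases j with (_ | _) | j <;> rcases k with (_ | _) | k <;>
  first
    | exact hij rfl
    | exact hik rfl
    | exact hjk rfl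
    | exact sep_mid hL hx hy hz hx' hy' hz'
    | exact sep_mid hL hx hz hy hx' hz' hy'
    | exact sep_mid hL hy hx hz hy' hx' hz'
    | exact sep_mid hL hy hz hx hy' hz' hx'
    | exact sep_mid hL hz hx hy hz' hx' hy'
    | exact sep_mid hL hz hy hx hz' hy' hx'
    | exact sep_far (t1 _ _) (t1 _ _) (t2 _ _ hjk) hL hx hy hz hx' hy' hz'
    | exact sep_far (t1 _ _).symm (t2 _ _ hik) (t1 _ _) hL hx hy hz hx' hy' hz'
    | exact sep_far (t2 _ _ hij) (t1 _ _).symm (t1 _ _).symm hL hx hy hz hx' hy' hz'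
    | exact sep_far (t2 _ _ hij) (t2 _ _ hik) (t2 _ _ hjk) hL hx hy hz hx' hy' hz'

noncomputable def pt (N : ℕ) (s : ℝ) : Bool ⊕ Fin (N + 1) → E
  | .inl true => !₂[s / MM N, s ^ 2 / MM N, 1 / MM N / (200 * MM N)]
  | .inl false => 0
  | .inr j => !₂[200 * MM N * tt N (2 * j), 200 * MM N * tt N (2 * j) ^ 2,
      (2 * s * tt N (2 * j) - tt N (2 * j) ^ 2) / s ^ 2]

noncomputable def nor (N : ℕ) (s : ℝ) : E := !₂[-(2 * s), 1, s ^ 2 * (200 * MM N)]

lemma tt_diff {N a b : ℕ} (ha : a ≤ 2 * N) (hb : b ≤ 2 * N) :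
    (tt N a - tt N b) ^ 2 ≤ tt N a ^ 2 := by
  have : (a : ℝ) ≤ 2 * N := by exact_mod_cast ha
  have : (b : ℝ) ≤ 2 * N := by exact_mod_cast hb
  have : (0 : ℝ) ≤ a := by positivity
  have : (0 : ℝ) ≤ b := by positivity
  unfold tt
  apply sq_le_sq' <;> linarith

lemma pt_mem {N i : ℕ} (hi : i < N) : ∀ a, pt N (tt N (2 * i + 1)) a ∈ fam N a
  | .inl true => by
    have hM := MM_ge N
    have h3 := tt_ge N (2 * i + 1)
    have h4 := tt_le (N := N) (j := 2 * i + 1) (by omega)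
    refine ⟨mem_ball_of (by norm_num) ?_, fun j ε hε => ?_⟩
    · simp only [pt]
      generalize tt N (2 * i + 1) = s at *
      generalize MM N = M at *
      have a1 : s / M ≤ 1 := by
        rw [div_le_one (by linarith)]
        nlinarith
      have a2 : s ^ 2 / M ≤ 1 := by rwa [div_le_one (by linarith)]
      have a3 : 1 / M / (200 * M) ≤ 1 := by
        rw [div_div, div_le_one (by positivity)]
        nlinarith
      have b1 : 0 ≤ s / M := by positivity
      have b2 : 0 ≤ s ^ 2 / M := by positivity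
      have b3 : 0 ≤ 1 / M / (200 * M) := by positivity
      have e : ∀ p q r : ℝ, 0 ≤ p → 0 ≤ q → 0 ≤ r → p ≤ 1 → q ≤ 1 → r ≤ 1 →
        (p - 0) ^ 2 + (q - 0) ^ 2 + (r - 0) ^ 2 ≤ 4 ^ 2 := fun p q r _ _ _ _ _ _ => by nlinarith
      exact e _ _ _ b1 b2 b3 a1 a2 a3
    · have h1 : 1 ≤ (tt N (2 * j) - tt N (2 * i + 1)) ^ 2 := by
        have : (((2 * j : ℕ) : ℤ) - ((2 * i + 1 : ℕ) : ℤ)) ≠ 0 := by omega
        have h2 : (1 : ℝ) ≤ |((((2 * j : ℕ) : ℤ) - ((2 * i + 1 : ℕ) : ℤ) : ℤ) : ℝ)| := by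
          exact_mod_cast Int.one_le_abs this
        rw [one_le_sq_iff_one_le_abs]
        have e : tt N (2 * j) - tt N (2 * i + 1) =
            ((((2 * j : ℕ) : ℤ) - ((2 * i + 1 : ℕ) : ℤ) : ℤ) : ℝ) := by
          unfold tt
          push_cast
          ring
        rwa [e]
      have := U_pt (tt_ge N (2 * j)) (tt_le (two_le j)) h1 (tt_diff (two_le j) (by omega))
      rcases hε with rfl | rfl
      exacts [this.1, this.2]
  | .inl false => ⟨by simp [pt], fun j ε _ => by simp [pt, U]⟩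
  | .inr j => by
    have h3 := tt_ge N (2 * i + 1)
    have h4 := tt_ge N (2 * j)
    have h5 := tt_diff (N := N) (a := 2 * i + 1) (by omega) (two_le j)
    refine mem_ball_of (by norm_num) ?_
    simp only [pt]
    generalize tt N (2 * i + 1) = s at *
    generalize tt N (2 * j) = t at *
    have a1 : (2 * s * t - t ^ 2) / s ^ 2 ≤ 1 := by
      rw [div_le_one (by positivity)]
      nlinarith [sq_nonneg (s - t)]
    have a2 : 0 ≤ (2 * s * t - t ^ 2) / s ^ 2 := div_nonneg (by nlinarith) (by positivity)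
    have e : ∀ a b w : ℝ, 0 ≤ w → w ≤ 1 → (a - a) ^ 2 + (b - b) ^ 2 + (w - 0) ^ 2 ≤ 1 ^ 2 :=
      fun a b w _ _ => by nlinarith
    exact e _ _ _ a2 a1

lemma pt_inner (N : ℕ) {s : ℝ} (hs : 0 < s) : ∀ a, inner ℝ (nor N s) (pt N s a) = 0 := by
  have hM := MM_ge N
  rintro ((_ | _) | j)
  · simp [pt]
  · simp [pt, nor, PiLp.inner_apply, Fin.sum_univ_three]
    field_simp
    ring
  · simp [pt, nor, PiLp.inner_apply, Fin.sum_univ_three]
    field_simp
    ring

lemma pt_det (N : ℕ) {s : ℝ} (hs : 0 < s) (j : Fin (N + 1)) :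
    SignType.sign (Matrix.det (Matrix.of ![(pt N s (.inl true) - pt N s (.inl false)).ofLp,
      (pt N s (.inr j) - pt N s (.inl false)).ofLp, (nor N s).ofLp])) =
      SignType.sign (tt N (2 * j) - s) := by
  have hM := MM_ge N
  have ht := tt_ge N (2 * j)
  have : Matrix.det (Matrix.of ![(pt N s (.inl true) - pt N s (.inl false)).ofLp,
      (pt N s (.inr j) - pt N s (.inl false)).ofLp, (nor N s).ofLp]) =
      (tt N (2 * j) - s) * (tt N (2 * j) / (MM N * s) *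
        (4 * s ^ 2 + 1 + (s ^ 2 * (200 * MM N)) ^ 2)) := by
    simp [pt, nor, Matrix.det_fin_three]
    field_simp
    ring
  rw [this, sign_mul, sign_pos (a := _ / _ * _) (by positivity), mul_one]

end Pool.Agent.H.MP_2c58a9_co
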